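import Pool.Agent.H589R2.MNL.LinLB

/-!
# Linear context-free languages need almost `log₂ n` NOT gates in the L model

A monotone pushdown automaton with one reversal whose language cannot be decided by polynomial size
undirected switching networks using at most `(1 - ε) log₂ n` negations.
-/

namespace Pool.Agent.Results.MP_cb9e82_lc.FewNegationsLIN

open Pool.Agent.H589R2.MNL

/-- **Almost `log₂ n` negations are needed to put the linear languages into L.** -/
theorem result : ∃ (Sig : Type) (_ : Fintype Sig) (M : PDA (Sig → Bool)), M.OneTurn ∧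
    (∀ q a b z, a ≤ b → M.δ q a z ⊆ M.δ q b z) ∧
    ∀ e k n₀ : ℕ, ∃ n ≥ n₀, ∀ R : Rounds (Fin n × Sig),
      (∀ i j A, (R.N i j A).prog.Undirected) → (∀ A, R.size A ≤ n ^ e) →
      (∀ W : Fin n → Sig → Bool, R.Accepts (fun y => W y.1 y.2) ↔ M.Accepts (List.ofFn W)) →
      n ^ k ≤ (∏ i ∈ Finset.range R.d, (R.w i + 1)) ^ (k + 1) := by
  classical
  refine ⟨Lt, inferInstance, lmach, lmach_oneTurn, fun q a b z h => lmach_mono q a b z h,
    fun e k n₀ => ?_⟩
  obtain ⟨K, s, cc, hKcc, hsn, hs1, hsingle⟩ := single_lin ((k + 1) * e) n₀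
  obtain ⟨m, hm⟩ : ∃ m, m = 2 ^ s := ⟨_, rfl⟩
  have hm1 : 1 ≤ m := by rw [hm]; exact Nat.one_le_two_pow
  have hnm : n₀ ≤ m := by
    rw [hm]; exact hsn.trans Nat.lt_two_pow_self.le
  obtain ⟨b, hb⟩ : ∃ b, b = (slin m K).length := ⟨_, rfl⟩
  obtain ⟨B, hB⟩ : ∃ B, B = 2 ^ (cc + 3 + 4 * s) := ⟨_, rfl⟩
  have hbB : b ≤ B := by
    have h1 := length_slin hm1 K
    have h2 : 2 ^ (cc + 3 + 4 * s) = 2 ^ cc * (8 * m ^ 4) := by
      rw [hm, ← pow_mul]
      rw [show cc + 3 + 4 * s = cc + (3 + s * 4) by ring, pow_add, pow_add]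
      norm_num
    rw [hb, hB, h2]
    exact h1.trans (Nat.mul_le_mul_right _ hKcc)
  obtain ⟨M, hM⟩ : ∃ M, M = B ^ k := ⟨_, rfl⟩
  have hB1 : 1 ≤ B := by rw [hB]; exact Nat.one_le_two_pow
  have hM1 : 1 ≤ M := by rw [hM]; exact Nat.one_le_pow _ _ hB1
  have hlen : (slins m M K).length = M * b := by rw [length_slins, hb]
  have hnn : n₀ ≤ (slins m M K).length := by
    rw [hlen]
    have h1 := le_length_slin (m := m) K
    have h2 : b ≤ M * b := Nat.le_mul_of_pos_left b hM1
    omega
  refine ⟨(slins m M K).length, hnn, fun R hund hsize hR => ?_⟩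
  have hn : (slins m M K).length ≤ B ^ (k + 1) := by
    rw [hlen, hM, pow_succ]
    exact Nat.mul_le_mul_left _ hbB
  have hlow : M + 1 ≤ ∏ i ∈ Finset.range R.d, (R.w i + 1) := by
    by_contra hlt
    have hprod : ∏ i ∈ Finset.range R.d, (R.w i + 1) ≤ M := by omega
    -- the programs on systems
    set ρ : Fin (slins m M K).length × Lt → Bool ⊕ (Fin M × Lv m) :=
      fun z => (slins m M K).get z.1 z.2 with hρ
    have hword : ∀ X : Fin M × Lv m → Bool,
        List.ofFn (fun i : Fin (slins m M K).length =>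
          fun o => Sum.elim id X ((slins m M K).get i o))
        = ((List.finRange M).map (fun j => fun v => X (j, v))).flatMap
          (fun x => (slin m K).map (lvl x)) := by
      intro X
      rw [← ev_slins]
      exact (List.map_ofFn (f := (slins m M K).get)
        (g := fun g o => Sum.elim id X (g o))).symm.trans (by rw [List.ofFn_get])
    have hgood : ∀ X : Fin M × Lv m → Bool,
        lmach.Accepts (List.ofFn (fun i : Fin (slins m M K).length =>
          fun o => Sum.elim id X ((slins m M K).get i o))) ↔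
        ∃ j, Con hm1 K (fun v => X (j, v)) := by
      intro X
      rw [hword, lmach_accepts hm1]
      simp [List.mem_map]
    have hx : ∀ X : Fin M × Lv m → Bool, (fun y : Fin (slins m M K).length × Lt =>
        (fun (i : Fin (slins m M K).length) (o : Lt) =>
          Sum.elim id X ((slins m M K).get i o)) y.1 y.2) = fun z => Sum.elim id X (ρ z) := by
      intro X
      rfl
    obtain ⟨ι, _, F, U, hF1, hF2, hF3, hF4⟩ := transfer_gen (M := M) Set.univ (Set.mem_univ _)
      (g := Con hm1 K) (neg := fun S => xnegL (2 * K) S) (fun S => Set.mem_univ _)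
      (fun S => not_con_xneg hm1 K S) (not_con_zero hm1 K)
      R.d R.w (fun i k A => (R.N i k A).pull ρ)
      (fun i k A A' hag => by simp only [R.dep i k A A' hag])
      ((slins m M K).length ^ e) (fun A => hsize A)
      (fun X _ => by
        obtain ⟨A, hA⟩ := R.exists_answers (fun z => Sum.elim id X (ρ z))
        refine ⟨A, fun i hi k hk => ?_, ?_⟩
        · rw [Net.pull_accepts]
          exact hA i hi k hk
        · rw [Net.pull_accepts, ← R.accepts_iff hA, ← hgood X, ← hR, hx X])
      hprod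
    obtain ⟨P, hPu, hP⟩ := exists_or_und F U (by
      intro o
      obtain ⟨i, k', A, ρ', h⟩ := hF2 o
      rw [h]
      exact pull_undirected _ (pull_undirected _ (hund _ _ _)))
    refine hsingle m hm hm1 _ ?_ P hPu (fun x hx => ?_) (fun S hacc => ?_)
    · have h1 : (slins m M K).length ^ e ≤ 2 ^ ((cc + 3 + 4 * s) * ((k + 1) * e)) := by
        calc (slins m M K).length ^ e ≤ (B ^ (k + 1)) ^ e := Nat.pow_le_pow_left hn e
          _ = 2 ^ ((cc + 3 + 4 * s) * ((k + 1) * e)) := by
            rw [hB, ← pow_mul, ← pow_mul]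
      have h2 : 1 ≤ 2 ^ ((cc + 3 + 4 * s) * ((k + 1) * e)) := Nat.one_le_two_pow
      have h3 : 2 ^ ((cc + 3 + 4 * s) * ((k + 1) * e) + 2)
          = 4 * 2 ^ ((cc + 3 + 4 * s) * ((k + 1) * e)) := by rw [pow_add]; ring
      omega
    · rw [hP]
      exact hF3 _ (Set.mem_univ _) hx
    · rw [hP] at hacc
      exact hF4 S hacc
  have hbM : b ^ k ≤ M := by
    rw [hM]
    exact Nat.pow_le_pow_left hbB k
  calc (slins m M K).length ^ k = M ^ k * b ^ k := by rw [hlen, mul_pow]
    _ ≤ M ^ k * M := Nat.mul_le_mul_left _ hbM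
    _ = M ^ (k + 1) := (pow_succ _ _).symm
    _ ≤ (∏ i ∈ Finset.range R.d, (R.w i + 1)) ^ (k + 1) :=
        Nat.pow_le_pow_left (by omega) _

end Pool.Agent.Results.MP_cb9e82_lc.FewNegationsLIN
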