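import Mathlib
import Pool.Agent.H540R2.Circ
import Pool.Agent.H540R2.Lift.Defs
import Pool.Agent.H540R2.Lift.NegDefs
import Pool.Agent.H540R2.Lin.Defs
import Pool.Agent.H540R2.Lin.Main

/-!
# Size, width and the number of NOT gates of circuits for a linear context-free language

Non-uniform L is the class of languages with circuits of polynomial size and logarithmic width. We
give a linear language over `{0, 1}` for which circuits of width `w` with `t` NOT gates have size at
least `2 ^ (c * (log n - t) ^ 2 / log w)`. In particular, every family of circuits of polynomial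
size and width `n ^ o(1)` for this linear language uses `log n - o(log n)` NOT gates.
-/

set_option autoImplicit false

namespace Pool.Agent.Results.MP_cb9e82_lc.FewNegationsLinear

open Pool.Agent.H540R2

/-- There are a linear context-free grammar `G` over `{0, 1}` and a constant `c` such that for all
`n` the following holds. Let `C` be a circuit with at most `2 ^ q` gates (`q ≥ 1`, `q ≥ log₂ n`),
layered of width `w`, that decides for every word of length `n` whether `G` generates it. Then
`(log₂ n - number of NOT gates) ^ 2 ≤ c * q * (log₂ w + 1)`. -/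
theorem result : ∃ G : ContextFreeGrammar Bool, IsLinear G ∧ ∃ c : ℕ, ∀ n : ℕ,
    ∀ (C : Circuit n) (w q : ℕ),
      (∀ x : Fin n → Bool, C.eval x = true ↔ List.ofFn x ∈ G.language) →
      C.Layered w → 1 ≤ q → Nat.log 2 n ≤ q → C.size ≤ 2 ^ q →
      (Nat.log 2 n - C.nots) ^ 2 ≤ c * (q * (Nat.log 2 w + 1)) := by
  obtain ⟨c, hc⟩ := Lin.lin_tradeoff
  exact ⟨Lin.Gr, Lin.Gr_linear, c, hc⟩

end Pool.Agent.Results.MP_cb9e82_lc.FewNegationsLinear
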