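import Pool.Agent.H564R3.GR.Main
import Pool.Agent.H564R3.GR.Upper
import Pool.Agent.H564R3.GR.Num
import Pool.Agent.H564R3.SV.Good
import Pool.Agent.H564R3.TS.Real

/-!
Shortest monotone lattice paths (edit distance, linear context-free parsing) by pure dynamic
programs: in polynomial time almost `n` registers are needed.
-/

set_option autoImplicit false

namespace Pool.Agent.Results.MP_cb9e82_lc.LatticePaths

open Finset
open scoped NNReal
open Pool.Agent.H564R3.PW (Instr exec syms)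
open Pool.Agent.H564R3.TS
open Pool.Agent.H564R3.SV (good_trop_sum)
open Pool.Agent.H564R3.GR

/-- The (min,+) program `p`, whose constants are real numbers or infinity, writes into register `o`
the length of a shortest monotone lattice path from `(0, 0)` to `(n, n)`, for all lengths of the
edges in the natural numbers. -/
def SolvesMin {n : ℕ} {ρ : Type} [DecidableEq ρ]
    (p : List (Instr (Tropical (WithTop ℝ)) (Edge n) ρ)) (o : ρ) : Prop :=
  ∀ w : Edge n → ℕ,
    exec (fun x => Tropical.trop (((w x : ℕ) : ℝ) : WithTop ℝ)) p o =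
      gridSum (fun x => Tropical.trop (((w x : ℕ) : ℝ) : WithTop ℝ))

/-- The program `p` over the nonnegative reals computes the sum over all monotone lattice paths
from `(0, 0)` to `(n, n)` of the products of the weights of their edges. -/
def SolvesSum {n : ℕ} {ρ : Type} [DecidableEq ρ]
    (p : List (Instr ℝ≥0 (Edge n) ρ)) (o : ρ) : Prop :=
  ∀ w : Edge n → ℝ≥0, exec w p o = gridSum w

theorem gcard {n : ℕ} : ∀ A ∈ (univ.filter
    (fun x : Fin (2 * n + 1) → Fin (n + 1) => IsPath x)).image gset, A.card = 2 * n := by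
  intro A hA
  rw [mem_image] at hA
  obtain ⟨x, _, rfl⟩ := hA
  exact grid_card x

theorem lowerMin {n : ℕ} {ρ : Type} [Fintype ρ] [DecidableEq ρ]
    (p : List (Instr (Tropical (WithTop ℝ)) (Edge n) ρ)) (o : ρ) (h : SolvesMin p o)
    (m r : ℕ) (hm : 1 ≤ m) (hr : 1 ≤ r) (hn : (8 * m * (r + 1) + 1) * 512 ^ r ≤ 2 * n) :
    m ^ r ≤ (128 * Fintype.card ρ) ^ r * p.length ^ 2 := by
  classical
  have h512 : 1 ≤ 512 ^ r := Nat.one_le_pow _ _ (by norm_num)
  have hn1 : 1 ≤ n := by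
    have h1 : (8 * m * (r + 1) + 1) * 1 ≤ 2 * n := (Nat.mul_le_mul_left _ h512).trans hn
    omega
  have hne : ((univ.filter
      (fun x : Fin (2 * n + 1) → Fin (n + 1) => IsPath x)).image gset).Nonempty :=
    ⟨_, mem_image_of_mem _ (mem_filter.2 ⟨mem_univ _,
      route_path (m := 1) (L := 0) le_rfl (by omega) (fun _ => 0)⟩)⟩
  obtain ⟨g1, g2⟩ := good_trop_sum _ hne (2 * n) gcard p o (by
    intro w
    rw [h w, grid_sum])
  exact grid_lower hm p o g1 g2 r hr hn

theorem lowerSum {n : ℕ} {ρ : Type} [Fintype ρ] [DecidableEq ρ]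
    (p : List (Instr ℝ≥0 (Edge n) ρ)) (o : ρ) (h : SolvesSum p o)
    (m r : ℕ) (hm : 1 ≤ m) (hr : 1 ≤ r) (hn : (8 * m * (r + 1) + 1) * 512 ^ r ≤ 2 * n) :
    m ^ r ≤ (128 * Fintype.card ρ) ^ r * p.length ^ 2 := by
  classical
  obtain ⟨g1, g2⟩ := good_nn _ (2 * n) gcard p o (by
    intro w
    rw [h w, grid_sum])
  exact grid_lower hm p o g1 g2 r hr hn

/-- **Lattice paths.** (1) Time-space trade-off for programs with `S` registers and `T`
instructions. (2) Programs with `n ^ c` instructions need `n ^ (1 - ε)` registers. (3) The row by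
row algorithm with `n + 4` registers. -/
theorem result :
    (∀ n m r : ℕ, 1 ≤ m → 1 ≤ r → (8 * m * (r + 1) + 1) * 512 ^ r ≤ 2 * n →
      ∀ (ρ : Type) [Fintype ρ] [DecidableEq ρ],
        (∀ (p : List (Instr (Tropical (WithTop ℝ)) (Edge n) ρ)) (o : ρ), SolvesMin p o →
          m ^ r ≤ (128 * Fintype.card ρ) ^ r * p.length ^ 2) ∧
        (∀ (p : List (Instr ℝ≥0 (Edge n) ρ)) (o : ρ), SolvesSum p o →
          m ^ r ≤ (128 * Fintype.card ρ) ^ r * p.length ^ 2)) ∧
    (∀ (c : ℕ) (ε : ℝ), 0 < ε → ∃ n₀ : ℕ, ∀ n ≥ n₀, ∀ (ρ : Type) [Fintype ρ] [DecidableEq ρ],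
        (∀ (p : List (Instr (Tropical (WithTop ℝ)) (Edge n) ρ)) (o : ρ), SolvesMin p o →
          (p.length : ℝ) ≤ (n : ℝ) ^ c → (n : ℝ) ^ (1 - ε) ≤ Fintype.card ρ) ∧
        (∀ (p : List (Instr ℝ≥0 (Edge n) ρ)) (o : ρ), SolvesSum p o →
          (p.length : ℝ) ≤ (n : ℝ) ^ c → (n : ℝ) ^ (1 - ε) ≤ Fintype.card ρ)) ∧
    (∀ (R : Type) [CommSemiring R] (n : ℕ),
      ∃ (ρ : Type) (_ : Fintype ρ) (_ : DecidableEq ρ) (p : List (Instr R (Edge n) ρ)) (o : ρ),
        Fintype.card ρ = n + 4 ∧ p.length ≤ 10 * (n + 1) ^ 2 ∧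
        ∀ w : Edge n → R, exec w p o = gridSum w) := by
  refine ⟨?_, ?_, ?_⟩
  · intro n m r hm hr hn ρ _ _
    exact ⟨fun p o h => lowerMin p o h m r hm hr hn, fun p o h => lowerSum p o h m r hm hr hn⟩
  · intro c ε hε
    obtain ⟨n₀, h₀⟩ := grid_num c ε hε
    refine ⟨n₀, fun n hn ρ _ _ => ⟨fun p o h hT => ?_, fun p o h hT => ?_⟩⟩
    · exact h₀ n hn _ _ (fun m r hm hr h1 => lowerMin p o h m r hm hr h1) hT
    · exact h₀ n hn _ _ (fun m r hm hr h1 => lowerSum p o h m r hm hr h1) hT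
  · intro R _ n
    exact grid_upper n

end Pool.Agent.Results.MP_cb9e82_lc.LatticePaths
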