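import Pool.Agent.H822R5.LN.MAIN
import Pool.Agent.H822R5.LN.FIN
import Pool.Agent.H822R5.LN.GTT
import Pool.Agent.H822R5.LN.GLR
import Pool.Agent.H822R5.LN.LNG
import Pool.Agent.H822R5.LN.CSP
import Pool.Agent.H822R5.LN.EXP
import Pool.Agent.H822R5.LN.POS
import Pool.Agent.H822R5.LN.FST
import Pool.Agent.H822R5.LN.CRO
import Pool.Agent.H822R5.LN.RCT
import Pool.Agent.H822R5.LN.SUB
import Pool.Agent.H822R5.LN.WRD
import Pool.Agent.H822R5.LN.POPX
import Pool.Agent.H822R5.LN.PRM

/-!
# A linear context-free language outside linear time and sublinear space

One linear context-free language `L` over `{0, 1}` such that for every `k` deterministic branching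
programs which decide the words of length `n` with at most `k n` queries have at least
`2 ^ (n / D)` nodes: linear languages are not decidable in time `O(n)` and space `o(n)`, for random
access to the input and non-uniformly.

The words consist of letters with a value, a flag and a target (three bits).  The language
consists of the words which have a flagged letter such that the parity of the number of the pairs
of ones at the same distance on the left and on the right of this letter differs from the target;
a pushdown automaton guesses the flagged letter and makes one turn there.

For the lower bound there are `p ^ 2` variables and fewer than `4 p` flagged letters, which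
correspond to the points of a parabola in the plane over the field with `p` elements: two sets of
variables with more than `p ^ 3` pairs always contain a pair which is symmetric to a flagged letter.
The points for which all the parities are the targets are dense enough for the theorem on
rectangles in the sets decided by programs of length `k n` (`Pool.Agent.H554R2.Lin.Main`, helper554
and helpers 35, 375, 403, 415, 619; based on the method of Ajtai and of Beame, Saks, Sun and Vee), but
they do not contain a large rectangle: if `u` (`v`) is the first difference of two elements of the
first (second) side, the parity for the sum of the positions of `u` and `v` is not constant on the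
four hybrids.

The lemmas of this file's library `Pool/Agent/H822R5/LN` were formalised by helpers 7, 25, 73, 87,
405, 475, 488, 541, 562 and 822.
-/

set_option autoImplicit false

namespace Pool.Agent.Results.MP_cb9e82_lc.LinearTimePrograms

open Pool.Agent.H822R5.LN
open Pool.Agent.H554R2.Sem Pool.Agent.H554R2.Coin

/-- There is a linear context-free grammar `G` over `{0, 1}` such that for every `k` there is `D`
such that for all `n ≥ D` and all deterministic branching programs `P` with fewer than
`2 ^ (n / D)` nodes, which output `false` only on words which are not in the language of `G`: some
word `x` of length `n` is not in the language, and `P` does not output `false` on `x` after at most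
`k n` queries. -/
theorem result : ∃ G : LinGrammar Bool, ∀ k : ℕ, ∃ D : ℕ, 0 < D ∧ ∀ n ≥ D,
    ∀ P : BP (Fin n) Bool, Fintype.card P.State < 2 ^ (n / D) →
      (∀ x l, P.Comp x l false → List.ofFn x ∉ G.language) →
      ∃ x : Pt n, List.ofFn x ∉ G.language ∧ ∀ l, P.Comp x l false → k * n < l.length :=
  TMAIN.MAIN TFIN.FIN.1 TFIN.FIN.2 (TLNG.LNG TGTT.GTT TGLR.GLR) (TPOPX.POP TCSP.CSP) TPRM.PRM
    TSUB.SUB (TWRD.WRD TPOS.POS) (TRCT.RCT TFST.FST (TCRO.CRO TPOS.POS) TEXP.EXP)

end Pool.Agent.Results.MP_cb9e82_lc.LinearTimePrograms
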